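import Pool.Agent.W888.GX.Fin

set_option autoImplicit false

/-!
# Branch-and-cut over sum-of-squares relaxations of linear degree, with the exponent of SETH

The definitions used in the statement are in `Pool/Agent/W888/GX/Four.lean`, `Mix.lean` and
`Pool/Agent/W888/UG/Ent.lean`, `Model.lean`:

* `Clause k n`, `Satisfies`, `falsified`: clauses with `k` literals over `n` variables, satisfaction
  and the number of falsified clauses of a formula;
* `LowDegree`, `IsPseudoExpectation`: the solutions of the sum-of-squares relaxation;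
* `Relax D F β`: the points `μ v a = L [x v = a]` of the pseudo-expectations `L` of degree `2 D` for
  which the expected number of falsified clauses of `F` is at most `β`;
* `lab x`: the point of the assignment `x`;
* `Tree`: branch-and-cut trees; `Tree.leaves`: the number of leaves; `Tree.Proves`: at every leaf no
  point of the relaxation satisfies all the branches above it;
* `SplitProof`: cutting-plane proofs with split cuts, as lists of cuts.
-/

namespace Pool.Agent.Results.MP_0e79d0_lc.BranchAndCut

open Pool.Agent.W888.GX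
open Pool.Agent.W888.UG (lab Tree SplitProof)

/-- For every `δ > 0` there are `M` and `C` such that for all `k ≥ C` there is `γ > 0` such that for
all large `n` there is a `k`-CNF `F` with `n` variables and `2 ^ (k - 1) M n` clauses with the
following properties.
1. Every assignment falsifies at least `(1 / 2 - δ) M n` clauses.
2. Let `D ≤ γ n`. If `{0, 1} ^ n` is covered by convex sets which contain no point of
`Relax D F (δ M n)`, then there are at least `2 ^ ((1 - C log k / k) n)` sets. Every branch-and-cut
tree which proves that more than `δ M n` clauses are always falsified has at least that many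
leaves, and every such proof with `L` split cuts satisfies `2 L + 1 ≥ 2 ^ ((1 - C log k / k) n)`.
3. If `δ < 1 / 4` and `D ≥ k` then some branch-and-cut tree with `2 ^ n` leaves is such a proof. -/
theorem result (δ : ℝ) (hδ : 0 < δ) :
    ∃ M C : ℕ, 1 ≤ M ∧ ∀ k : ℕ, C ≤ k → ∃ γ : ℝ, 0 < γ ∧ ∃ n0 : ℕ, ∀ n : ℕ, n0 ≤ n →
      ∃ (I : Type) (_ : Fintype I) (F : I → Clause k n),
        Fintype.card I = 2 ^ (k - 1) * (M * n) ∧
        (∀ x, (1 / 2 - δ) * (M * n) ≤ (falsified F x : ℝ)) ∧
        (∀ D : ℕ, (D : ℝ) ≤ γ * n →
          (∀ Q : List (Set (Fin n → ZMod 2 → ℝ)), (∀ S ∈ Q, Convex ℝ S) →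
            (∀ S ∈ Q, ∀ μ ∈ S, μ ∉ Relax D F (δ * (M * n))) →
            (∀ x : Fin n → ZMod 2, ∃ S ∈ Q, lab x ∈ S) →
            (2 : ℝ) ^ ((1 - C * Real.log k / k) * n) ≤ Q.length) ∧
          (∀ T : Tree (Fin n) (ZMod 2), T.Proves (Relax D F (δ * (M * n))) Set.univ →
            (2 : ℝ) ^ ((1 - C * Real.log k / k) * n) ≤ T.leaves) ∧
          (∀ l, SplitProof (Relax D F (δ * (M * n))) l Set.univ →
            (2 : ℝ) ^ ((1 - C * Real.log k / k) * n) ≤ 2 * l.length + 1)) ∧
        (δ < 1 / 4 → ∀ D : ℕ, k ≤ D → ∃ T : Tree (Fin n) (ZMod 2), T.leaves = 2 ^ n ∧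
          T.Proves (Relax D F (δ * (M * n))) Set.univ) :=
  main_all δ hδ

end Pool.Agent.Results.MP_0e79d0_lc.BranchAndCut
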