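import Pool.Agent.W912.SE.Sat
import Pool.Agent.W900.CH.NELev
import Pool.Agent.W912.SE.All

/-!
# How many strings of a random oracle have to be changed to make the randomised strong exponential
time hypothesis fail?

The formulas are CNFs whose literals may also ask the oracle: an oracle literal says that the
string given by a list of variables and constants is (or is not) in the oracle. The number of
changes is measured by a function `g`: the oracle `A` is obtained from `O` by changing, for all
large `n`, at most `g n` of the strings of length at most `n`. If `g n ≤ 2 ^ (n ^ ε)` for every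
`ε > 0` and infinitely many `n`, then for almost every oracle `O` and all oracles `A` that are
obtained from `O` by at most `g` changes, however these changes depend on `O`, no randomised
algorithm with oracle `A` decides satisfiability of the `w`-CNFs (`w ≥ 1`) with error at most
`1 / 3` in `C (L + 1) ^ d 2 ^ (a n / b)` rounds with `a < b`, where `n` is the number of the
variables and `L` the length of the code of the formula. Otherwise every oracle `O` can be changed,
by at most `g` changes, into an oracle `A` with `P^A = PSPACE^A`.
-/

set_option autoImplicit false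

namespace Pool.Agent.Results.MP_0e79d0_lc.ChangedStrings

open Pool.Agent.NPC Pool.Agent.H620R2.Gauge Pool.Agent.W900.CH Pool.Agent.W912.SE
open Pool.Agent.H628R3.RO (randomOracle)
open MeasureTheory

/-- The probability, over `T` fair coins, that the algorithm `M` with oracle `A` outputs `[true]`
within `T` rounds on the coins and the input `x`. -/
noncomputable def prob (A : Oracle) (M : Alg) (T : ℕ) (x : List Bool) : ℝ :=
  (((Finset.univ : Finset (Fin T → Bool)).filter (fun r =>
    M.run A (pairBits (List.ofFn r) x) T [] = some [true])).card : ℝ) / 2 ^ T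

/-- The randomised algorithm `M` with oracle `A` decides satisfiability of the oracle formulas
with at most `w` literals in every clause: with `T = C (L + 1) ^ d 2 ^ (a n / b)` rounds and `T`
coins it outputs `[true]` with probability at least `2 / 3` on the satisfiable ones and at most
`1 / 3` on the others. Here `n` is the number of the variables that occur in the formula and `L` is
the length of its code. -/
def Decides (A : Oracle) (M : Alg) (w C d a b : ℕ) : Prop :=
  ∀ F : Formula, (∀ c ∈ F, c.length ≤ w) → ∀ T : ℕ,
    T = C * ((enc F).length + 1) ^ d * 2 ^ (a * nv F / b) →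
    ((∃ y, sat A F y = F.length) → 2 / 3 ≤ prob A M T (enc F)) ∧
    ((¬ ∃ y, sat A F y = F.length) → prob A M T (enc F) ≤ 1 / 3)

theorem result (g : ℕ → ℝ) :
    ((∀ ε : ℝ, 0 < ε → ∃ᶠ n : ℕ in Filter.atTop, g n ≤ 2 ^ (n : ℝ) ^ ε) →
      ∀ᵐ O ∂randomOracle, ∀ A : Oracle, Close g O A →
        ∀ (M : Alg) (w C d a b : ℕ), 1 ≤ w → a < b → ¬ Decides A M w C d a b) ∧
    ((¬ ∀ ε : ℝ, 0 < ε → ∃ᶠ n : ℕ in Filter.atTop, g n ≤ 2 ^ (n : ℝ) ^ ε) →
      ∀ O : Oracle, ∃ A : Oracle, Close g O A ∧ ∀ L, IsPSPACE A L → IsP A L) := by
  refine ⟨fun hg => ?_, fun hg O => ?_⟩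
  · filter_upwards [low_all hg] with O hO A hA M w C d a b hw hab h
    refine hO A hA true M (1 / 4) C d a b (by norm_num) hab (sep_rnd ?_ ?_)
    · intro F hF h1 T hT
      have h2 := (h F (fun c hc => (hF c hc).trans hw) T hT).1 h1
      unfold prob at h2
      rw [le_div_iff₀ (by positivity)] at h2
      have h3 : (2 : ℝ) * 2 ^ T ≤ 3 * (((Finset.univ : Finset (Fin T → Bool)).filter (fun r =>
        M.run A (pairBits (List.ofFn r) (enc F)) T [] = some [true])).card : ℝ) := by linarith
      exact_mod_cast h3
    · intro F hF hne hfar T hT
      have h2 := (h F (fun c hc => (hF c hc).trans hw) T hT).2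
        (not_sat_of_far (by norm_num) hne hfar)
      unfold prob at h2
      rw [div_le_iff₀ (by positivity)] at h2
      have h3 : 3 * (((Finset.univ : Finset (Fin T → Bool)).filter (fun r =>
        M.run A (pairBits (List.ofFn r) (enc F)) T [] = some [true])).card : ℝ) ≤ 2 ^ T := by
        linarith
      exact_mod_cast h3
  · obtain ⟨A, h1, h2⟩ := exists_close_PSPACE hg O
    exact ⟨A, h1, fun L hL => isP_of_reduces (h2 L hL)⟩

end Pool.Agent.Results.MP_0e79d0_lc.ChangedStrings
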