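import Pool.Agent.W953.KC.SatRand
import Pool.Agent.W953.KC.SatEqv

/-!
# Satisfiability with few NOT gates for formulas with few numbers of literals

A CNF formula with `n` variables and `M` clauses is given by its incidence matrix, a word with
`N = 2 n M` bits. Negations do not help for the formulas with exactly `m` occurrences of literals
(Berkowitz, Valiant), and `log N + O(1)` NOT gates are enough for all formulas (Markov, Fischer).
Here it is shown that the nonuniform form of the strong exponential time hypothesis does not change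
if the circuits may have only `t` NOT gates and need to be correct only for `W` consecutive numbers
of occurrences, as long as `1 ≤ W ≤ o(n / log n) * 2 ^ t`; and that for `W ≥ n ^ c * 2 ^ t` it is
true, even for randomised circuits which are slightly better than guessing.
-/

set_option autoImplicit false

namespace Pool.Agent.Results.MP_0e79d0_lc.LiteralCountWindows

open Filter Pool.Agent.H540R2 Pool.Agent.H559R4 Pool.Agent.H559R8

variable {M n : ℕ}

/-- a numbering of the entries of the incidence matrix -/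
noncomputable def entryNo (M n : ℕ) : Fin M × Fin n × Bool ≃ Fin (M * (n * 2)) :=
  Fintype.equivFinOfCardEq (by simp)

/-- the formula whose incidence matrix has the given bits -/
noncomputable def formula (x : Fin (M * (n * 2)) → Bool) : Fin M × Fin n × Bool → Bool :=
  fun p => x (entryNo M n p)

/-- the number of occurrences of literals -/
def literals (x : Fin (M * (n * 2)) → Bool) : ℕ := (Finset.univ.filter (fun e => x e = true)).card

/-- The circuit `C` is right about the satisfiability of the formula of `x`. -/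
def Right (C : Circuit (M * (n * 2))) (x : Fin (M * (n * 2)) → Bool) : Prop :=
  C.eval x = true ↔ Sat (formula x)

/-- There is `δ > 0` such that for all `a` and all large `n` some circuit with at most
`2 ^ ((1 - δ) * n)` gates decides the satisfiability of all formulas with `n` variables, `n ^ a`
clauses and at most `L a n` literals in each clause. For `L a n = a` this is the negation of the
nonuniform strong exponential time hypothesis. -/
def Fast (L : ℕ → ℕ → ℕ) : Prop :=
  ∃ δ : ℝ, 0 < δ ∧ ∀ a : ℕ, ∀ᶠ n : ℕ in atTop, ∃ C : Circuit (n ^ a * (n * 2)),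
    (C.size : ℝ) ≤ 2 ^ ((1 - δ) * n) ∧ ∀ x, Narrow (L a n) (formula x) → Right C x

/-- The same for circuits with at most `t a n` NOT gates, and, for all `m`, for the formulas with at
least `m` and less than `m + W a n` occurrences of literals. -/
def FastOn (L t W : ℕ → ℕ → ℕ) : Prop :=
  ∃ δ : ℝ, 0 < δ ∧ ∀ a : ℕ, ∀ᶠ n : ℕ in atTop, ∀ m, ∃ C : Circuit (n ^ a * (n * 2)),
    C.nots ≤ t a n ∧ (C.size : ℝ) ≤ 2 ^ ((1 - δ) * n) ∧
    ∀ x, Narrow (L a n) (formula x) → m ≤ literals x → literals x < m + W a n → Right C x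

lemma rpow_min {δ : ℝ} {n : ℕ} {s : ℕ} (hs : (s : ℝ) ≤ 2 ^ ((1 - δ) * n)) :
    (s : ℝ) ≤ 2 ^ ((1 - min δ (1 / 2)) * n) := by
  refine hs.trans (Real.rpow_le_rpow_of_exponent_le (by norm_num) ?_)
  apply mul_le_mul_of_nonneg_right _ (Nat.cast_nonneg _)
  have := min_le_left δ (1 / 2)
  linarith

open Classical in
/-- (1) Let `1 ≤ W ≤ K * 2 ^ t` and `K = o(n / log n)`. Then there are circuits with at most
`2 ^ ((1 - δ) * n)` gates and `t` NOT gates for `W` consecutive numbers of literals if and only if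
there are circuits with at most `2 ^ ((1 - δ) * n)` gates for all formulas. (2) For all `δ` and `A`
there is `c` such that for all large `n` and all `t ≤ n`: if there are `M ≥ n ^ c * 2 ^ t` clauses,
`W ≥ n ^ c * 2 ^ t` and `2 M ≤ m ≤ M log n`, then every randomised circuit (distribution `μ` on a
finite set of circuits) with at most `t` NOT gates and less than `2 ^ ((1 - δ) * n) / 2 ^ t` gates
is right with probability less than `1 / 2 + 1 / n ^ A` for some formula with at least `m` and less
than `m + W` literals, and at most `log (n ^ c * 2 ^ t)` in each clause. -/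
theorem result :
    (∀ L K t W : ℕ → ℕ → ℕ,
      (∀ a, Tendsto (fun n : ℕ => (K a n : ℝ) * Real.log n / n) atTop (nhds 0)) →
      (∀ a n, 1 ≤ W a n ∧ W a n ≤ K a n * 2 ^ t a n) → (FastOn L t W ↔ Fast L)) ∧
    (∀ δ : ℝ, 0 < δ → ∀ A : ℕ, ∃ c : ℕ, ∀ᶠ n : ℕ in atTop, ∀ M t m W : ℕ, t ≤ n →
      n ^ c * 2 ^ t ≤ M → n ^ c * 2 ^ t ≤ W → 2 * M ≤ m → m ≤ Nat.log 2 n * M →
      ∀ (Ω : Type) [Fintype Ω] (μ : Ω → ℝ), (∀ o, 0 ≤ μ o) → ∑ o, μ o = 1 →
        ∀ C : Ω → Circuit (M * (n * 2)),
          (∀ o, (C o).nots ≤ t ∧ ((C o).size : ℝ) * 2 ^ t < 2 ^ ((1 - δ) * n)) →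
          ∃ x : Fin (M * (n * 2)) → Bool, Narrow (Nat.log 2 (n ^ c * 2 ^ t)) (formula x) ∧
            m ≤ literals x ∧ literals x < m + W ∧
            ∑ o ∈ Finset.univ.filter (fun o => Right (C o) x), μ o < 1 / 2 + 1 / (n : ℝ) ^ A) := by
  refine ⟨fun L K t W hK hW => ⟨?_, ?_⟩, ?_⟩
  · rintro ⟨δ, hδ, h⟩
    refine ⟨min δ (1 / 2) / 2, by positivity, fun a => ?_⟩
    filter_upwards [h a, W953.KC.Sat.num_final (min δ (1 / 2)) (by positivity) (min_le_right _ _)
      a (fun _ => 0) (by simp), eventually_ge_atTop 1] with n hn hnum hn1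
    choose C h1 h2 h3 using hn
    obtain ⟨s, hs1, hs2⟩ : ∃ s : ℕ, (s : ℝ) ≤ 2 ^ ((1 - min δ (1 / 2)) * n) ∧
        ∀ m, (C m).size ≤ s := by
      refine ⟨⌊(2 : ℝ) ^ ((1 - min δ (1 / 2)) * (n : ℝ))⌋₊, Nat.floor_le (by positivity),
        fun m => Nat.le_floor (rpow_min (h2 m))⟩
    obtain ⟨C', c1, c2⟩ := W953.KC.of_slices (n := n ^ a * (n * 2))
      (f := fun x => (C (W953.NW.wt x)).eval x) (A := s)
      (fun m => ⟨C m, hs2 m, fun x hx => by rw [hx]⟩)
    refine ⟨C', ?_, fun x hx => ?_⟩
    · refine le_trans ?_ (hnum s hs1)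
      have h4 : C'.size ≤ 2 ^ 21 * (n ^ a * (n * 2) + 1) ^ (0 + 14) *
          (s + n ^ a * 2 ^ W953.NW.tde (n * 2) + 1 + 1) := by
        refine c1.trans ?_
        rw [Nat.zero_add]
        exact Nat.mul_le_mul_left _ (by omega)
      exact_mod_cast h4
    · have := h3 (W953.NW.wt x) x hx le_rfl (by
        have := (hW a n).1
        show W953.NW.wt x < _
        omega)
      unfold Right at this ⊢
      rw [c2]
      exact this
  · rintro ⟨δ, hδ, h⟩
    refine ⟨min δ (1 / 2) / 2, by positivity, fun a => ?_⟩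
    filter_upwards [h a, W953.KC.Sat.num_final (min δ (1 / 2)) (by positivity) (min_le_right _ _)
      a (K a) (hK a)] with n hn hnum m
    obtain ⟨C, h1, h2⟩ := hn
    obtain ⟨C₁, d1, d2⟩ := W953.KC.Sat.closure (entryNo (n ^ a) n) (L a n) C h2
    obtain ⟨C', c1, c2, c3⟩ := W953.KC.prop_windows (n := n ^ a * (n * 2))
      (fun x y hxy => W953.KC.Sat.mono_prop (entryNo (n ^ a) n) (L a n) x y hxy) C₁ d2 m (W a n)
      (K a n) (t a n) (hW a n).1 (hW a n).2
    refine ⟨C', c1, ?_, fun x hx hx1 hx2 => ?_⟩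
    · refine le_trans ?_ (hnum C.size (rpow_min h1))
      have h4 : C'.size ≤ 2 ^ 21 * (n ^ a * (n * 2) + 1) ^ (K a n + 14) *
          (C.size + n ^ a * 2 ^ W953.NW.tde (n * 2) + 1 + 1) := by
        refine c2.trans ?_
        exact Nat.mul_le_mul_left _ (by omega)
      exact_mod_cast h4
    · have := c3 x hx1 hx2
      unfold Right
      rw [this]
      have hx' : Narrow (L a n) (W953.KC.Sat.form (entryNo (n ^ a) n) x) := hx
      simp only [hx', not_true_eq_false, or_false]
      exact Iff.rfl
  · intro δ hδ A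
    obtain ⟨c, H⟩ := W953.KC.Sat.sat_windows δ hδ A
    refine ⟨c, ?_⟩
    filter_upwards [H] with n hn M t m W h0 h1 h2 h3 h4 Ω _ μ hμ hμ1 C hC
    obtain ⟨x, hx0, hx1, hx2, hx3⟩ := hn M t m W h0 h1 h2 h3 h4 _ (entryNo M n) Ω μ hμ hμ1 C
      (fun o => (hC o).1) (fun o => (hC o).2)
    refine ⟨x, hx0, hx1, hx2, ?_⟩
    convert hx3
    exact Iff.rfl

end Pool.Agent.Results.MP_0e79d0_lc.LiteralCountWindows
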