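import Mathlib
import Pool.Agent.W980.KS.Main

/-!
# The strong exponential time hypothesis for clause learning with sums of squares

Many algorithms for `k`-SAT combine branching, clause learning and relaxations: on an unsatisfiable
`k`-CNF formula they write a resolution refutation some of whose clauses are obtained at once, from
a relaxation (a linear or semidefinite program) of the formula restricted by the current partial
assignment. We prove the lower bound of the strong exponential time hypothesis, unconditionally, for
such refutations.

For every `ε > 0` there are `M` and `k₀` such that for all `k ≥ k₀` and `n ≥ M k` there is an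
unsatisfiable `k`-CNF formula `F` with `n` variables and at most `n 2 ^ k` clauses with the following
property. Let `s ≤ 2 ^ (n / (M k))`.
* Call a clause `D` cheap if it has an arbitrary resolution derivation with at most `s` clauses from
  clauses which have sum-of-squares proofs from `F` with at most `s` different monomials (of
  arbitrary degrees). So linear or semidefinite relaxations of size `s` (Sherali-Adams,
  Lovász-Schrijver, Lasserre) of the formula restricted by the negation of a clause may be used, and
  `s` clauses may be learned without any restriction.
* Consider a resolution refutation (a directed acyclic graph, with weakening) whose axioms are cheap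
  clauses, and suppose that for every path from the empty clause there is a set `V` of at most
  `n / M` variables such that at most `k n / M` steps of the path resolve on variables outside of
  `V`. For fixed `ε` and large `k`: all variables but a constant fraction, which depends on the
  path, are resolved on a constant number of times on average, where the constant is as large as
  we like. (Special cases: regular resolution; resolution of depth `C n` for any constant `C`;
  resolution in which on each path a few variables are resolved on arbitrarily often.)

Then the refutation has more than `2 ^ ((1 - ε) n)` clauses.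
-/

set_option autoImplicit false

namespace Pool.Agent.Results.MP_0e79d0_lc.ResolutionSumsOfSquares

open Pool.Agent.H538R2.SB Pool.Agent.W980.KS

theorem result (ε : ℝ) (hε : 0 < ε) : ∃ M k₀ : ℕ, 0 < M ∧ ∀ k n : ℕ, k₀ ≤ k → M * k ≤ n →
    ∃ F : Finset (Clause n), (∀ D ∈ F, D.card ≤ k) ∧ F.card ≤ n * 2 ^ k ∧
      (∀ x : Asg n, ∃ D ∈ F, FalseAt D x) ∧
      ∀ s : ℕ, s ^ (M * k) ≤ 2 ^ n → ∀ R : Derivation (Cheap F s) ∅,
        (∀ (h : List (Fin n)) (W : Clause n), R.Path ∅ h W → ∃ V : Finset (Fin n),
          M * V.card ≤ n ∧ M * (h.filter (fun v => v ∉ V)).length ≤ k * n) →
        (2 : ℝ) ^ ((1 - ε) * n) < R.lines.card :=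
  main_ks ε hε

/-- The clauses which contain a clause of `F` are cheap, so usual refutations are included. -/
theorem cheap_of_subset {n : ℕ} {F : Finset (Clause n)} {s : ℕ} (hs : 1 ≤ s) {C D : Clause n}
    (hC : C ∈ F) (hCD : C ⊆ D) : Cheap F s D := by
  classical
  have h1 : SosProves F s D := by
    refine ⟨{∅}, by simpa using hs, fun C' _ => if C' = C then -1 else 0, 0, fun j => j.elim0,
      ?_, fun j => j.elim0, ?_⟩
    · intro C'
      have h2 : (fun _ : Asg n => (if C' = C then (-1 : ℝ) else 0))
          = (if C' = C then (-1 : ℝ) else 0) • mono (∅ : Clause n) := by
        funext x
        simp [mono, FalseAt]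
      change (fun _ : Asg n => (if C' = C then (-1 : ℝ) else 0)) ∈ Submodule.span ℝ _
      rw [h2]
      exact Submodule.smul_mem _ _ (Submodule.subset_span ⟨∅, by simp, rfl⟩)
    · intro x hx
      have hCx : FalseAt C x := fun l hl => hx l (hCD hl)
      simp only [Finset.univ_eq_empty, Finset.sum_empty, add_zero]
      rw [Finset.sum_eq_single C]
      · simp [mono, hCx]
      · intro b _ hb
        simp [hb]
      · intro h; exact absurd hC h
  exact ⟨⟨{D}, fun _ => none, fun _ => 0, by simp, fun C' hC' _ => by
    rw [Finset.mem_singleton.1 hC']; exact h1, fun C' _ v C₀ C₁ h => by simp at h⟩, by simpa using hs⟩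

end Pool.Agent.Results.MP_0e79d0_lc.ResolutionSumsOfSquares
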